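import Pool.Agent.NNe.Chk
import Pool.Agent.NNe.Slots

set_option linter.all false
set_option maxRecDepth 1000000
namespace Pool.Agent.NNr.R11_4_13_15

open Pool.Agent.NNe

noncomputable def SI0_0 : Nat := (nat_lit 0x300c0300c0300c0300c03008020080200801004010040000000)
noncomputable def SW0_0 : Nat := (nat_lit 0x14009804801600600280100040010088028012003000004001e00e0040034018007)
noncomputable def RV0_0 : Nat := (nat_lit 0x30a00820400818200a0880c208801218200f10000430a00908801508804520401618201e08804208803708806618202c10000e0880bd30a01508807f08808b)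
noncomputable def CO0_0 : Nat := (nat_lit 0x2a80502a80202a80102a7440288840288810288800280c50280c40269c40265420265410249c40241c400aa0400aa0100aa0000a744002b05002b04002744)
noncomputable def Y0_0_1_0 : Nat := (nat_lit 0x18000000000040000000000600000000003000000000018000000000000000000000600000000003)
noncomputable def Y0_0_2_3 : Nat := (nat_lit 0x1fa000000000790000000001a800000000000000000000fa0000000007900000000070000000000180000000001c000000000060)
noncomputable def C0_0 : Cd := (Cd.mk (nat_lit 21) (nat_lit 5) (nat_lit 1025) SI0_0 SW0_0 RV0_0 CO0_0 (Sl.cons (Sd.mk (nat_lit 0) (nat_lit 0) (nat_lit 0) (nat_lit 3) (Sb.cons (nat_lit 8) (nat_lit 0) (nat_lit 3) Sb.nil) (Bl.c Y0_0_1_0 (nat_lit 8) (nat_lit 1) Bl.nil)) (Sl.cons (Sd.mk (nat_lit 2) (nat_lit 0) (nat_lit 3) (nat_lit 4) (Sb.cons (nat_lit 8) (nat_lit 0) (nat_lit 4) Sb.nil) (Bl.r Y0_0_1_0 (nat_lit 0) Bl.nil)) (Sl.cons (Sd.mk (nat_lit 9) (nat_lit 8) (nat_lit 7) (nat_lit 5) (Sb.cons (nat_lit 0) (nat_lit 0) (nat_lit 2) (Sb.cons (nat_lit 8) (nat_lit 2) (nat_lit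 3) Sb.nil)) (Bl.r Y0_0_2_3 (nat_lit 3) Bl.nil)) (Sl.cons (Sd.mk (nat_lit 10) (nat_lit 8) (nat_lit 12) (nat_lit 9) (Sb.cons (nat_lit 0) (nat_lit 0) (nat_lit 5) (Sb.cons (nat_lit 8) (nat_lit 5) (nat_lit 4) Sb.nil)) (Bl.c Y0_0_2_3 (nat_lit 10) (nat_lit 2) Bl.nil)) Sl.nil)))))
noncomputable def SI0_1 : Nat := (nat_lit 0x1405014050140501405014040100401004010040100300c0300c0300c0300c0200802008020080200802004010040100401004010040000000000000000000000)
noncomputable def SW0_1 : Nat := (nat_lit 0x1980c805402200d004402000f00400c4052028010808003200e00380c004e02600f807803000d00300bc04a01d00b8058018005002000c05c02d0160090038015005802800402b011806c0280130090024002000)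
noncomputable def RV0_1 : Nat := (nat_lit 0x20400918200b0880c30880cb08801808801318201010000508801608804620401718201f08803418202008803a08804308803808805e08804e18202618202810000908805308805b0880500880840880900880992040001820000880a208800020400318200308806718202d10000f0880be0880c608806f18203210001208806c08808008808c088094888023a0400c98201208809da04010982016)
noncomputable def CO0_1 : Nat := (nat_lit 0x2a80202a80102a7440297840290c40288840288810288800280c40269c40265420265410255840255810251c40249c40241c4016ac40166440166410156810156800152c4014ac40142c4012b04012744011784011002011001010b8401004401004201004100aa0400aa0100aa0000a7440097840092c4008a81008a800082c4002b04002744001784001104001102001101000b84000142000141)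
noncomputable def Y0_1_1_0 : Nat := (nat_lit 0x3fe00000000012000000000f2000000000000000000003da00000000048000000000ff800000000000000000003fe00000000020000000000ff800000000000000000003c000000000000000000000f4000000000120000000003f000000000000)
noncomputable def Y0_1_2_3 : Nat := (nat_lit 0x1fe000000000080000000007f800000000020000000001c6000000000c30000000006180000000010000000000186000000000000000000007f800000000020000000001fe00000000008000000000638000000001000000000019e00000000008)
noncomputable def Y0_1_4_5 : Nat := (nat_lit 0x1f80000000000000000000072000000000190000000001d800000000000000000003fe000000001020000000003d800000000000000000003fe00000000100000000000ff800000000400000000003fe00000000100)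
noncomputable def C0_1 : Cd := (Cd.mk (nat_lit 52) (nat_lit 6) (nat_lit 546) SI0_1 SW0_1 RV0_1 CO0_1 (Sl.cons (Sd.mk (nat_lit 0) (nat_lit 0) (nat_lit 0) (nat_lit 9) (Sb.cons (nat_lit 0) (nat_lit 0) (nat_lit 3) (Sb.cons (nat_lit 4) (nat_lit 3) (nat_lit 4) (Sb.cons (nat_lit 8) (nat_lit 7) (nat_lit 2) Sb.nil))) (Bl.c Y0_1_1_0 (nat_lit 18) (nat_lit 1) Bl.nil)) (Sl.cons (Sd.mk (nat_lit 2) (nat_lit 0) (nat_lit 9) (nat_lit 9) (Sb.cons (nat_lit 0) (nat_lit 0) (nat_lit 3) (Sb.cons (nat_lit 4) (nat_lit 3) (nat_lit 2) (Sb.cons (nat_lit 8) (nat_lit 5) (nat_lit 4) Sb.nil))) (Bl.r Y0_1_1_0 (nat_lit 0) Bl.nil)) (Sl.cons (Sd.mk (nat_lit 4) (nat_lit 4) (nat_lit 18) (nat_lit 9) (Sb.cons (nat_lit 0) (nat_lit 0) (nat_lit 4) (Sb.cons (nat_lit 4) (nat_lit 4) (nat_lit 3) (Sb.cons (nat_lit 8) (nat_lit 7) (nat_lit 2) Sb.nil))) (Bl.r Y0_1_2_3 (nat_lit 3) Bl.nil)) (Sl.cons (Sd.mk (nat_lit 5) (nat_lit 4) (nat_lit 27) (nat_lit 8) (Sb.cons (nat_lit 0) (nat_lit 0) (nat_lit 2) (Sb.cons (nat_lit 4) (nat_lit 2) (nat_lit 3) (Sb.cons (nat_lit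 8) (nat_lit 5) (nat_lit 3) Sb.nil))) (Bl.c Y0_1_2_3 (nat_lit 18) (nat_lit 2) Bl.nil)) (Sl.cons (Sd.mk (nat_lit 9) (nat_lit 8) (nat_lit 35) (nat_lit 8) (Sb.cons (nat_lit 0) (nat_lit 0) (nat_lit 2) (Sb.cons (nat_lit 4) (nat_lit 2) (nat_lit 3) (Sb.cons (nat_lit 8) (nat_lit 5) (nat_lit 3) Sb.nil))) (Bl.r Y0_1_4_5 (nat_lit 5) Bl.nil)) (Sl.cons (Sd.mk (nat_lit 10) (nat_lit 8) (nat_lit 43) (nat_lit 9) (Sb.cons (nat_lit 0) (nat_lit 0) (nat_lit 4) (Sb.cons (nat_lit 4) (nat_lit 4) (nat_lit 2) (Sb.cons (nat_lit 8) (nat_lit 6) (nat_lit 3) Sb.nil))) (Bl.c Y0_1_4_5 (nat_lit 16) (nat_lit 4) Bl.nil)) Sl.nil)))))))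
noncomputable def SI0_2 : Nat := (nat_lit 0xc0300c0300c02008020080200802004010040100400000000000000000)
noncomputable def SW0_2 : Nat := (nat_lit 0xb805802400b0030054022010005001400800300a003c012008001004c01c00d006001c002000)
noncomputable def RV0_2 : Nat := (nat_lit 0x18202910000a08805408805c08805108809a2040011820010880a30880012040041820040880c708807018203310001308806d088095888024a0400d98201308809ea04011982017)
noncomputable def CO0_2 : Nat := (nat_lit 0x156810156800152c4014ac40142c4011784011002011001010b840100440100420100410097840092c4008a81008a800082c4001784001104001102001101000b84000142000141)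
noncomputable def Y0_2_1_0 : Nat := (nat_lit 0xda0000000002000000000036800000000134000000000c80000000002000000000032000000000000000000000da0000000004d)
noncomputable def Y0_2_2_3 : Nat := (nat_lit 0x3e00000000007000000000000000000000000000000000e000000000070000000000f80000000001c0000000003e00000000017000000000000000000000000000000000e00000000007)
noncomputable def C0_2 : Cd := (Cd.mk (nat_lit 24) (nat_lit 7) (nat_lit 67) SI0_2 SW0_2 RV0_2 CO0_2 (Sl.cons (Sd.mk (nat_lit 0) (nat_lit 0) (nat_lit 0) (nat_lit 7) (Sb.cons (nat_lit 0) (nat_lit 0) (nat_lit 3) (Sb.cons (nat_lit 4) (nat_lit 3) (nat_lit 4) Sb.nil)) (Bl.c Y0_2_1_0 (nat_lit 10) (nat_lit 1) Bl.nil)) (Sl.cons (Sd.mk (nat_lit 2) (nat_lit 0) (nat_lit 7) (nat_lit 5) (Sb.cons (nat_lit 0) (nat_lit 0) (nat_lit 3) (Sb.cons (nat_lit 4) (nat_lit 3) (nat_lit 2) Sb.nil)) (Bl.r Y0_2_1_0 (nat_lit 0) Bl.nil)) (Sl.cons (Sd.mk (nat_lit 4) (nat_lit 4) (nat_lit 12) (nat_lit 7) (Sb.cons (nat_lit 0) (nat_lit 0) (nat_lit 4) (Sb.cons (nat_lit 4) (nat_lit 4) (nat_lit 3) Sb.nil))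 (Bl.r Y0_2_2_3 (nat_lit 3) Bl.nil)) (Sl.cons (Sd.mk (nat_lit 5) (nat_lit 4) (nat_lit 19) (nat_lit 5) (Sb.cons (nat_lit 0) (nat_lit 0) (nat_lit 2) (Sb.cons (nat_lit 4) (nat_lit 2) (nat_lit 3) Sb.nil)) (Bl.c Y0_2_2_3 (nat_lit 14) (nat_lit 2) Bl.nil)) Sl.nil)))))
noncomputable def C0_3 : Cd := (Cd.mk (nat_lit 0) (nat_lit 11) (nat_lit 281) (nat_lit 0) (nat_lit 0) (nat_lit 0) (nat_lit 0) Sl.nil)
noncomputable def SI0_4 : Nat := (nat_lit 0x2008020080200802008020080200802008020080200802008020080200802008020080200801c0701c0701c0701c0701c0701c07018060180601806018060180601806018060180601806018060180601806018060180601806018060180601806018060180601806018060140501405014050140501405014050140501405014050140501405014050100401004010040100401004010040100401004010040100401004010040100300c0300c0300c0300c0300c0300c0300c0300c0300c0300c0300c0300c0300802008020080200802008020080200802008010040100401004010040100401004010040100401004010040000000000000000000000000000000000000)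
noncomputable def SW0_4 : Nat := (nat_lit 0xf607a03c81800c605f02f01880c205d02e016c08e04a0230114092048022010c08403101800bc044021010003801a00c03c01dc0b4059020810005c02d00f807801600a03981c80ec07103801bc0ea07403701b40d805502c01500a605702b01480a205001e00fc07603a01f00f407203801b80b005602a00d007403201800e006c02e01600a8024010007068834019e0b305902941420a005382981480a3051027c13c09d01b00a4050014009804800c00506683281920ce066032c1900c706302c416009b04c025c13809a04c825812a09401a80d004e01100203101820c0062830c1840bf05f02f415e0ae049023c11c093048824011a08c04581ac09e04e008000c1780bb05d02b415808a04482200d4069026803c00400100002e41700b705582a810c083041021c10a08404082000fe068033819809803301302d816a0b405482a00fc07d03e01940c804b0190094048023)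
noncomputable def RV0_4 : Nat := (nat_lit 0x8807b30a0120880220880c508807808806b18203030a01008801f08801020400b18200d0880ce08807718203110001130a00f08801e08801118200e10000308807630a00e08801d08807930a01108802008807430a00d08801b08806308804a08805a08804108805908804008805808803f08806108804808805608803d30a01a088087888031888026a0400f98201530a00608800e30a00020400218200208809388802ea0401298201830a00408800b08800320400618200608809c88802d88802798201930a00308800a08800418200710000088802c30a0020880090880a688802f88802898201a30a00508800c08800518200810000188802a30a0010880070880d130a0220880b90880cd0880c40880bc30a0200880b630a00c08801a08800f20400a18200c30a0072040071820090880cc30a00b08801908801418201110000630a00a0880170880b330a01e0880ab08804708803618202208803320401418201c0880b10880af0880ad30a01c0880a908803c20401518201d08803220401318201b08803518202108803b0880440880390880b230a01d0880aa08806018202a10000b08804c1820241000080880b00880ae0880ac30a01b0880a808805508804d18202508804b18202310000708805f08804f18202708805d0880520880a530a01908808608809b08809208808a30a01408807e30a0180880850880910880a40880022040051820050880cf30a0210880b70880c90880c00880ba30a01f0880b408807208806918202f08806418202b10000c08806818202e1000100880bf0880c80880710880a030a01708808208809708808e08808830a01308807c30a01608808108808d088096888025a0400e982014)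
noncomputable def CO0_4 : Nat := (nat_lit 0x3aac403a8c503a8c403a74403a6c403a64403a64103a4c503a4c403a44403a44203a4410397840396c40396810396800394c50394c40394840394810394800392c40390c50390c4038ac40388c50388c40382c40380c50380c4036ac40369c40366c40365c40356c40355c40352c40351c4034ac40349c40342c40341c4032b05032b040329c40329040329020329010328c50328c40328050328020328010327440325c40325420325410324c50324c40324440324420324410317840315c40315840315810314c50314c40314840314810314800311c40310c50310c4030b840309c40309840309810308c50308c40308840308810308800301c40300c50300c402bb8402bb0502bb0402b78402b74402b34402b30502b30402b0c502b0c402b04402b04202b04102b00502b00202b0010297840290c50290c40288840288810288800280c50280c4027b84027b05027b040279c40279840279810279040279020279010277840277440273440273050273040271c40271420271410271040271020271010255840255810251c40249c40241c4017b84017b05017b04017ac4017a81017a80017a04017a01017a000177840177440173440173050173040172c4017244017241017204017201017200016ac4016644016641014ac40142c4013b84013b05013b04013784013744013344013305013304012b05012b04012744010b8401004401004201004100bb8400bb0500bb0400b78400b74400b34400b30500b30400b2c400b24400b24100b20400b20100b20000aa0400aa0100aa0000a7440097840092c4003b84003b05003b04003784003744003344003305003304002b05002b04002744001784001104001102001101)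
noncomputable def Y0_4_1_0 : Nat := (nat_lit 0x3f80000000003400000000078000000000000000000003f80000000003c000000000fe000000000040000000003f800000000000000000000fe000000000020000000001e000000000000000000000fe0000000000f0000000003f800000000000000000000fe000000000100000000001f800000000008000000000fe000000000100000000001f8000000000080000000007e0000000000800000003fc7800000005a000000000bd1e0000000000200000002f47800000017a200000000ff1e0000000000200000003ff8000000017a000000000ffe000000000000)
noncomputable def Y0_4_2_3 : Nat := (nat_lit 0x3e0000000001f0000000000d8000000000000000000003e0000000001f0000000000f80000000007c0000000003e0000000001f0000000000f80000000007c00000000036000000000000000000000f80000000007c00002c9dd060000000000000000fffff180000024008000003ffffc6000000d02a000000fffffe00000024008000003fffff80000009002000000bff7fe000000180f3000002ffdff800000090020)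
noncomputable def Y0_4_4_5 : Nat := (nat_lit 0x1fe0000000000000000000058800000000000000000001fe000000000000000000007f800000000000000000001fe000000000840000000005e800000000010000000001fe000000000840000000005e8000000002e40000000017a000000000040000000007f800000000000000000001fe000000000000000000007f80000000000000000000162000000000000000000007f800000000000000000001fe000000000000000000005e8000000002e40000000017a000000000000000000007f8000000002100000000017a000000000b90000000005e80000000001000001fffe3e00000a51204000005ebd8e80000000481000001fffe3e00000251200000007ffff000000094480000001ffffc000000251200)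
noncomputable def Y0_4_6_6 : Nat := (nat_lit 0x20220200000000000000000808808000000000000000000000000000000000000000000000000000000000000000000000000000000000000000000000000000000000070270200000000000000001e09e0800000b003000000020220200000000000000000808808000004044040000020220200000000000000001e08808000002000000000000000000000000000000000000000000000000000000000000000000000000000001009c080000000000000000402782000002000c000000160880800000b00000000005822020000008110100000160880800000200000100f0000202080200001010000000000000000000000000000000000000000000000000000000000000000000038080000702000000000001f8200001e081c000000300100b0000202000100000000402c000080800000000000100b00002020804800010100000000000000000000000380c0000702000000000001f83c0001e081c040000300100402020000000000000000000000000000000000000000000000000000000000000000000000000000000000380c0702000000000000001f83c1e080001c040b00000100402020000000000000004010080800000000000000100402020000802010100000000000000000000000000380c0702000000000000001f83c1e080001c040b00000)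
noncomputable def Y0_4_7_7 : Nat := (nat_lit 0x15400000000000000000000000000000000000000000015400000000000000000000000000000000000000000141400000000000000000000000000000000000000000141400000000000000000000000000000000000000000154000000000000000000000000000000000000000000154000000000000)
noncomputable def Y0_4_8_8 : Nat := (nat_lit 0x11f6d80000000080000000000000000000000000000000000000000000000000000047db6000000000000000001006d80000000000000000041db600000000a490000001072480000000000000000000000000000000000000000000000000000000000000000000000000000000000000000000000000000000000000000000000000000000e3e000d8000208000240003800003600000000000000060e0004800000000000000183800120000c1400090000000000000000000000000000000000000000000000000000000000000000000000000000000000000000000000000000000000000000000038f80036000000800000000000000000000000000000000000000000000000000000e3f1f6000000020080000000000000000000000000000000000000000000000000038fc7d8000000080200000000000000000000000000000000000000000000000)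
noncomputable def C0_4 : Cd := (Cd.mk (nat_lit 210) (nat_lit 4) (nat_lit 4369) SI0_4 SW0_4 RV0_4 CO0_4 (Sl.cons (Sd.mk (nat_lit 0) (nat_lit 0) (nat_lit 0) (nat_lit 15) (Sb.cons (nat_lit 4) (nat_lit 0) (nat_lit 4) (Sb.cons (nat_lit 8) (nat_lit 4) (nat_lit 3) (Sb.cons (nat_lit 12) (nat_lit 7) (nat_lit 8) Sb.nil))) (Bl.c Y0_4_1_0 (nat_lit 40) (nat_lit 1) Bl.nil)) (Sl.cons (Sd.mk (nat_lit 2) (nat_lit 0) (nat_lit 15) (nat_lit 20) (Sb.cons (nat_lit 4) (nat_lit 0) (nat_lit 2) (Sb.cons (nat_lit 8) (nat_lit 2) (nat_lit 4) (Sb.cons (nat_lit 12) (nat_lit 6) (nat_lit 14) Sb.nil))) (Bl.r Y0_4_1_0 (nat_lit 0) Bl.nil)) (Sl.cons (Sd.mk (nat_lit 4) (nat_lit 4) (nat_lit 35) (nat_lit 15) (Sb.cons (nat_lit 0) (nat_lit 0) (nat_lit 4) (Sb.cons (nat_lit 8) (nat_lit 4) (nat_lit 3) (Sb.cons (nat_lit 12) (nat_lit 7) (nat_lit 8) Sb.nil))) (Bl.r Y0_4_2_3 (nat_lit 3) Bl.nil)) (Sl.cons (Sd.mk (nat_lit 5) (nat_lit 4) (nat_lit 50) (nat_lit 25) (Sb.cons (nat_lit 0) (nat_lit 0) (nat_lit 2) (Sb.cons (nat_lit 8) (nat_lit 2) (nat_lit 3)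 (Sb.cons (nat_lit 12) (nat_lit 5) (nat_lit 20) Sb.nil))) (Bl.c Y0_4_2_3 (nat_lit 30) (nat_lit 2) Bl.nil)) (Sl.cons (Sd.mk (nat_lit 9) (nat_lit 8) (nat_lit 75) (nat_lit 25) (Sb.cons (nat_lit 0) (nat_lit 0) (nat_lit 2) (Sb.cons (nat_lit 4) (nat_lit 2) (nat_lit 3) (Sb.cons (nat_lit 12) (nat_lit 5) (nat_lit 20) Sb.nil))) (Bl.r Y0_4_4_5 (nat_lit 5) Bl.nil)) (Sl.cons (Sd.mk (nat_lit 10) (nat_lit 8) (nat_lit 100) (nat_lit 24) (Sb.cons (nat_lit 0) (nat_lit 0) (nat_lit 5) (Sb.cons (nat_lit 4) (nat_lit 5) (nat_lit 3) (Sb.cons (nat_lit 12) (nat_lit 8) (nat_lit 16) Sb.nil))) (Bl.c Y0_4_4_5 (nat_lit 50) (nat_lit 4) Bl.nil)) (Sl.cons (Sd.mk (nat_lit 12) (nat_lit 12) (nat_lit 124) (nat_lit 44) (Sb.cons (nat_lit 0) (nat_lit 0) (nat_lit 12) (Sb.cons (nat_lit 4) (nat_lit 12) (nat_lit 12) (Sb.cons (nat_lit 8) (nat_lit 24) (nat_lit 20) Sb.nil))) (Bl.r Y0_4_6_6 (nat_lit 6) (Bl.c Y0_4_6_6 (nat_lit 88) (nat_lit 6) Bl.nil))) (Sl.cons (Sd.mk (nat_lit 13) (nat_lit 12) (nat_lit 168) (nat_lit 12) (Sb.cons (nat_lit 0) (nat_lit 0)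 (nat_lit 4) (Sb.cons (nat_lit 4) (nat_lit 4) (nat_lit 4) (Sb.cons (nat_lit 8) (nat_lit 8) (nat_lit 4) Sb.nil))) (Bl.r Y0_4_7_7 (nat_lit 7) (Bl.c Y0_4_7_7 (nat_lit 24) (nat_lit 7) Bl.nil))) (Sl.cons (Sd.mk (nat_lit 14) (nat_lit 12) (nat_lit 180) (nat_lit 30) (Sb.cons (nat_lit 0) (nat_lit 0) (nat_lit 6) (Sb.cons (nat_lit 4) (nat_lit 6) (nat_lit 12) (Sb.cons (nat_lit 8) (nat_lit 18) (nat_lit 12) Sb.nil))) (Bl.r Y0_4_8_8 (nat_lit 8) (Bl.c Y0_4_8_8 (nat_lit 60) (nat_lit 8) Bl.nil))) Sl.nil))))))))))
noncomputable def SI0_5 : Nat := (nat_lit 0x4010040100300c0300c0200802008020080200801004010040100401004010040100400000000000000000)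
noncomputable def SW0_5 : Nat := (nat_lit 0x48022006002804001e004001803001c00b0068028012002000808804201e00e806402e01a00c005802a008000008003e01c00d8050026007)
noncomputable def RV0_5 : Nat := (nat_lit 0x8807a08802108807508801c08806208804908805708803e0880a788803088802908800d08800610000288802b0880080880d00880b80880ca0880c10880bb0880b508807308806a08806510000d10001408806e0880a108808308809808808f08808908807d08809f)
noncomputable def CO0_5 : Nat := (nat_lit 0x38ac40388c40382c40380c4034ac40349c40342c40341c4030b840309c40309840308c40308840308800301c40300c400bb8400bb0400b78400b74400b34400b30400b2c400b24400b20400b200008a800082c4003b84003b04003784003744003344003304000b84)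
noncomputable def Y0_5_1_0 : Nat := (nat_lit 0x800000000000000000000020000000000000000000000800000000000000000000020000000000000000000000800000000000000000000020000000000000000000000800000000000000000000020000000000000000000000800000000000000000000000000000000000000000000000000000000000000000fe00000000000)
noncomputable def Y0_5_2_2 : Nat := (nat_lit 0x21000000000000000000000000000000000000000000000000000000000000000001c40000000000000000000021000000000000000000000000000000000000000000000000000000000000000001c400000000000)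
noncomputable def Y0_5_3_3 : Nat := (nat_lit 0x1400000000000000000000000000000000000000000001400000000000)
noncomputable def Y0_5_4_4 : Nat := (nat_lit 0x28000000000000000000000000000000000000000000028000000000000000000000000000000000)
noncomputable def C0_5 : Cd := (Cd.mk (nat_lit 35) (nat_lit 9) (nat_lit 4104) SI0_5 SW0_5 RV0_5 CO0_5 (Sl.cons (Sd.mk (nat_lit 0) (nat_lit 0) (nat_lit 0) (nat_lit 7) (Sb.cons (nat_lit 0) (nat_lit 0) (nat_lit 1) (Sb.cons (nat_lit 12) (nat_lit 1) (nat_lit 6) Sb.nil)) (Bl.c Y0_5_1_0 (nat_lit 24) (nat_lit 1) Bl.nil)) (Sl.cons (Sd.mk (nat_lit 2) (nat_lit 0) (nat_lit 7) (nat_lit 12) (Sb.cons (nat_lit 0) (nat_lit 0) (nat_lit 2) (Sb.cons (nat_lit 12) (nat_lit 2) (nat_lit 10) Sb.nil)) (Bl.r Y0_5_1_0 (nat_lit 0) Bl.nil)) (Sl.cons (Sd.mk (nat_lit 12) (nat_lit 12) (nat_lit 19) (nat_lit 8) (Sb.cons (nat_lit 0) (nat_lit 0) (nat_lit 8) Sb.nil) (Bl.r Y0_5_2_2 (nat_lit 2) (Bl.c Y0_5_2_2 (nat_lit 16) (nat_lit 2) Bl.nil))) (Sl.cons (Sd.mk (nat_lit 13) (nat_lit 12) (nat_lit 27) (nat_lit 4)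 (Sb.cons (nat_lit 0) (nat_lit 0) (nat_lit 4) Sb.nil) (Bl.r Y0_5_3_3 (nat_lit 3) (Bl.c Y0_5_3_3 (nat_lit 8) (nat_lit 3) Bl.nil))) (Sl.cons (Sd.mk (nat_lit 14) (nat_lit 12) (nat_lit 31) (nat_lit 4) (Sb.cons (nat_lit 0) (nat_lit 0) (nat_lit 4) Sb.nil) (Bl.r Y0_5_4_4 (nat_lit 4) (Bl.c Y0_5_4_4 (nat_lit 8) (nat_lit 4) Bl.nil))) Sl.nil))))))
noncomputable def CL0 : Cl := (Cl.cons C0_0 (Cl.cons C0_1 (Cl.cons C0_2 (Cl.cons C0_3 (Cl.cons C0_4 (Cl.cons C0_5 Cl.nil))))))
noncomputable def ZL0_0 : Zl := (Zl.cons (nat_lit 0) (nat_lit 0) (nat_lit 0) (Zl.cons (nat_lit 18) (nat_lit 0) (nat_lit 9) (Zl.cons (nat_lit 12) (nat_lit 9) (nat_lit 7) (Zl.cons (nat_lit 0) (nat_lit 0) (nat_lit 0) (Zl.cons (nat_lit 35) (nat_lit 16) (nat_lit 15) (Zl.cons (nat_lit 0) (nat_lit 0) (nat_lit 0) Zl.nil))))))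
noncomputable def ZZ0 : ZZ := (ZZ.cons ZL0_0 ZZ.nil)
noncomputable def SI1_0 : Nat := (nat_lit 0xc0300c0300c0200802008010040100000)
noncomputable def SW1_0 : Nat := (nat_lit 0x1a008002000c00200c003800800000b0050018012005)
noncomputable def RV1_0 : Nat := (nat_lit 0x18200508805f08800b18200708800e08802918201108802708802308803718201608805d08804408804b)
noncomputable def CO1_0 : Nat := (nat_lit 0x2a80102a7440288840288810280c40269c40265410249c40241c400aa0400aa0100a744002b04002744)
noncomputable def Y1_0_1_0 : Nat := (nat_lit 0x40000100000c0000300000c00003)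
noncomputable def Y1_0_2_3 : Nat := (nat_lit 0x7c0001f00007c0001f0000600001800006000018)
noncomputable def C1_0 : Cd := (Cd.mk (nat_lit 14) (nat_lit 5) (nat_lit 1025) SI1_0 SW1_0 RV1_0 CO1_0 (Sl.cons (Sd.mk (nat_lit 0) (nat_lit 0) (nat_lit 0) (nat_lit 2) (Sb.cons (nat_lit 8) (nat_lit 0) (nat_lit 2) Sb.nil) (Bl.c Y1_0_1_0 (nat_lit 6) (nat_lit 1) Bl.nil)) (Sl.cons (Sd.mk (nat_lit 2) (nat_lit 0) (nat_lit 2) (nat_lit 3) (Sb.cons (nat_lit 8) (nat_lit 0) (nat_lit 3) Sb.nil) (Bl.r Y1_0_1_0 (nat_lit 0) Bl.nil)) (Sl.cons (Sd.mk (nat_lit 9) (nat_lit 8) (nat_lit 5) (nat_lit 4) (Sb.cons (nat_lit 0) (nat_lit 0) (nat_lit 2) (Sb.cons (nat_lit 8) (nat_lit 2) (nat_lit 2) Sb.nil)) (Bl.r Y1_0_2_3 (nat_lit 3) Bl.nil)) (Sl.cons (Sd.mk (nat_lit 10) (nat_lit 8) (nat_lit 9) (nat_lit 5) (Sb.cons (nat_lit 0) (nat_lit 0) (nat_lit 3) (Sb.cons (nat_lit 8) (nat_lit 3) (nat_lit 2) Sb.nil)) (Bl.c Y1_0_2_3 (nat_lit 8) (nat_lit 2) Bl.nil)) Sl.nil)))))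
noncomputable def SI1_1 : Nat := (nat_lit 0x140501405010040100300c0300c0200802008020080100401004000000000000)
noncomputable def SW1_1 : Nat := (nat_lit 0x3200e004001c02a0120068050022006002006002600c001800800201700b004000a00f0058028012000)
noncomputable def RV1_1 : Nat := (nat_lit 0x20400608800f08800c10000320401108802008802508802d10000708803308802f08804608804d20400008800020400218200108803810000a08806010000d08804f888015a04009982009a0400c)
noncomputable def CO1_1 : Nat := (nat_lit 0x2a8020290c40288840288800265420255840251c4016644015680014ac40142c4012b0401274401100201004401004201004100aa0400aa00009784008a80001784001104001102001101000142)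
noncomputable def Y1_1_1_0 : Nat := (nat_lit 0x1400000000048000000000200000000004800000)
noncomputable def Y1_1_2_3 : Nat := (nat_lit 0x10000000000100000000002000000000010000000000200000000001000000)
noncomputable def Y1_1_4_5 : Nat := (nat_lit 0x18000000000240000000002000000)
noncomputable def C1_1 : Cd := (Cd.mk (nat_lit 26) (nat_lit 6) (nat_lit 546) SI1_1 SW1_1 RV1_1 CO1_1 (Sl.cons (Sd.mk (nat_lit 0) (nat_lit 0) (nat_lit 0) (nat_lit 5) (Sb.cons (nat_lit 0) (nat_lit 0) (nat_lit 1) (Sb.cons (nat_lit 4) (nat_lit 1) (nat_lit 4) Sb.nil)) (Bl.c Y1_1_1_0 (nat_lit 8) (nat_lit 1) Bl.nil)) (Sl.cons (Sd.mk (nat_lit 2) (nat_lit 0) (nat_lit 5) (nat_lit 4) (Sb.cons (nat_lit 0) (nat_lit 0) (nat_lit 1) (Sb.cons (nat_lit 4) (nat_lit 1) (nat_lit 1) (Sb.cons (nat_lit 8) (nat_lit 2) (nat_lit 2) Sb.nil))) (Bl.r Y1_1_1_0 (nat_lit 0) Bl.nil)) (Sl.cons (Sd.mk (nat_lit 4) (nat_lit 4) (nat_lit 9) (nat_lit 6) (Sb.cons (nat_lit 0) (nat_lit 0) (nat_lit 3) (Sb.cons (nat_lit 4) (nat_lit 3) (nat_lit 1) (Sb.cons (nat_lit 8) (nat_lit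 4) (nat_lit 2) Sb.nil))) (Bl.r Y1_1_2_3 (nat_lit 3) Bl.nil)) (Sl.cons (Sd.mk (nat_lit 5) (nat_lit 4) (nat_lit 15) (nat_lit 4) (Sb.cons (nat_lit 0) (nat_lit 0) (nat_lit 2) (Sb.cons (nat_lit 4) (nat_lit 2) (nat_lit 1) (Sb.cons (nat_lit 8) (nat_lit 3) (nat_lit 1) Sb.nil))) (Bl.c Y1_1_2_3 (nat_lit 12) (nat_lit 2) Bl.nil)) (Sl.cons (Sd.mk (nat_lit 9) (nat_lit 8) (nat_lit 19) (nat_lit 3) (Sb.cons (nat_lit 4) (nat_lit 0) (nat_lit 2) (Sb.cons (nat_lit 8) (nat_lit 2) (nat_lit 1) Sb.nil)) (Bl.r Y1_1_4_5 (nat_lit 5) Bl.nil)) (Sl.cons (Sd.mk (nat_lit 10) (nat_lit 8) (nat_lit 22) (nat_lit 4) (Sb.cons (nat_lit 0) (nat_lit 0) (nat_lit 2) (Sb.cons (nat_lit 4) (nat_lit 2) (nat_lit 1) (Sb.cons (nat_lit 8) (nat_lit 3) (nat_lit 1) Sb.nil))) (Bl.c Y1_1_4_5 (nat_lit 6) (nat_lit 4) Bl.nil)) Sl.nil)))))))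
noncomputable def SI1_2 : Nat := (nat_lit 0xc0300c0300802008020080100401004000000000000)
noncomputable def SW1_2 : Nat := (nat_lit 0x2200d004001002000c003800c00400f005801800200e005002400a000)
noncomputable def RV1_2 : Nat := (nat_lit 0x18201508803208803408803008805218200008805508800118200208806108803d18201908803c08805088801698200a08805398200c)
noncomputable def CO1_2 : Nat := (nat_lit 0x156810152c4014ac40142c4011784011001010b840100440100410097840092c4008a810082c4001784001104001101000b84000141)
noncomputable def Y1_2_1_0 : Nat := (nat_lit 0x200000800005c000160000200000800005c00012)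
noncomputable def Y1_2_2_3 : Nat := (nat_lit 0x1c0000700001c0000000001c0000700003c0000f00001c00002)
noncomputable def C1_2 : Cd := (Cd.mk (nat_lit 18) (nat_lit 7) (nat_lit 67) SI1_2 SW1_2 RV1_2 CO1_2 (Sl.cons (Sd.mk (nat_lit 0) (nat_lit 0) (nat_lit 0) (nat_lit 5) (Sb.cons (nat_lit 0) (nat_lit 0) (nat_lit 2) (Sb.cons (nat_lit 4) (nat_lit 2) (nat_lit 3) Sb.nil)) (Bl.c Y1_2_1_0 (nat_lit 8) (nat_lit 1) Bl.nil)) (Sl.cons (Sd.mk (nat_lit 2) (nat_lit 0) (nat_lit 5) (nat_lit 4) (Sb.cons (nat_lit 0) (nat_lit 0) (nat_lit 2) (Sb.cons (nat_lit 4) (nat_lit 2) (nat_lit 2) Sb.nil)) (Bl.r Y1_2_1_0 (nat_lit 0) Bl.nil)) (Sl.cons (Sd.mk (nat_lit 4) (nat_lit 4) (nat_lit 9) (nat_lit 5) (Sb.cons (nat_lit 0) (nat_lit 0) (nat_lit 3) (Sb.cons (nat_lit 4) (nat_lit 3) (nat_lit 2) Sb.nil)) (Bl.r Y1_2_2_3 (nat_lit 3) Bl.nil)) (Sl.cons (Sd.mk (nat_lit 5) (nat_lit 4) (nat_lit 14) (nat_lit 4) (Sb.cons (nat_lit 0) (nat_lit 0) (nat_lit 2) (Sb.cons (nat_lit 4) (nat_lit 2) (nat_lit 2) Sb.nil)) (Bl.c Y1_2_2_3 (nat_lit 10) (nat_lit 2) Bl.nil))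 Sl.nil)))))
noncomputable def C1_3 : Cd := (Cd.mk (nat_lit 0) (nat_lit 11) (nat_lit 281) (nat_lit 0) (nat_lit 0) (nat_lit 0) (nat_lit 0) Sl.nil)
noncomputable def SI1_4 : Nat := (nat_lit 0x1c0701c0701c0701c0701c0701c0701c0701c060180601806018060180601806018060180601806018060180601405014050140501405014050140401004010040100401004010040100400c0300c0300c0300c0300c0300c03008020080200802008020080100401004010040100401004010040000000000000000000000)
noncomputable def SW1_4 : Nat := (nat_lit 0x8204001b00d406803301480a004e01d00e005002600800380fc07a03e01e00c8062030017809804a024011806c034012008003c02200e00300140ca06402b01500aa053011006401a00c005818c0c406103001480a2050027808404001800500100be05e02e813809a04c02580ec05c02d004800c0b805b025012407402c001000400005a02c812008a047023011007203801b80ac03e05802b810c08402a00f005c02c015)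
noncomputable def RV1_4 : Nat := (nat_lit 0x8804108801408803b08800920400818200610000c08800a10000208803f08801208804008801308803e08801188801da0400b088008204001a0400d08800320400418200488801898200d08800410000088801b08800688801c88801998200e08800710000188801a08800508806508805a08805c08805820400720400508806308801008800d18200810000408802208801f20400f18201020401008801e20400e18200f08802118201208802608802808802410000808802b10000608802c18201308802a10000508803608802e18201408803508803108805608804808804a08804308804708804e08800220400318200308806408805908805b08805708803a18201810000908803918201710000b08805e08806208805408804508804908804208804c088051888017a0400a98200b)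
noncomputable def CO1_4 : Nat := (nat_lit 0x3aac403a8c403a64403a44403a44203a4410396800394840394800392c40390c4038ac40388c40382c40380c40329c40329020328c40328020325420324440324420324410315840315810314840314800311c40310c40309c40309840309810308c40308800301c40300c402bb8402bb0402b34402b30402b04202b0020297840290c40288840288810288800279840279040279020279010271420271040271020271010255840255810251c40249c40241c4017a80017a04017a00017244017241017204017200016ac4016644016641014ac40142c4013b84013b04013344013304012b0401274401004401004201004100bb8400bb0400b34400b30400b24400b24100b20000aa0400aa0100aa0000a744009784003b84003b04003344003304002744001784001104001102001101)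
noncomputable def Y1_4_1_0 : Nat := (nat_lit 0x340000000003c000000000080000200003c0000200004000000000008000020000200000000038000000000008000020007a0000080000080000200078000000)
noncomputable def Y1_4_2_3 : Nat := (nat_lit 0x7c0000000007c0000100007c0000000007c0000000288000000003d800000000288000000001730001cc00288000000)
noncomputable def Y1_4_4_5 : Nat := (nat_lit 0x440000100004400000000078000000000040000000007800002000044000000000780000200000400000001f84000e000018400060000f8000000000f8000080000f8000000)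
noncomputable def Y1_4_6_6 : Nat := (nat_lit 0x60c001810000508000400000000000000600000000004508010000040000000000000000000000000000000400001000040010800000000000000002400c00000000000000000000000000000000000000024600080000400400000000000000000024600000000)
noncomputable def Y1_4_7_7 : Nat := (nat_lit 0x10000000000000000000003540001000000000000000000000000000000000000a814000000000000000000000000000001000000000000000000000110000000000000000000011000000000000000000)
noncomputable def C1_4 : Cd := (Cd.mk (nat_lit 102) (nat_lit 4) (nat_lit 4369) SI1_4 SW1_4 RV1_4 CO1_4 (Sl.cons (Sd.mk (nat_lit 0) (nat_lit 0) (nat_lit 0) (nat_lit 9) (Sb.cons (nat_lit 4) (nat_lit 0) (nat_lit 4) (Sb.cons (nat_lit 8) (nat_lit 4) (nat_lit 1) (Sb.cons (nat_lit 12) (nat_lit 5) (nat_lit 4) Sb.nil))) (Bl.c Y1_4_1_0 (nat_lit 24) (nat_lit 1) Bl.nil)) (Sl.cons (Sd.mk (nat_lit 2) (nat_lit 0) (nat_lit 9) (nat_lit 12) (Sb.cons (nat_lit 4) (nat_lit 0) (nat_lit 1) (Sb.cons (nat_lit 8) (nat_lit 1) (nat_lit 4) (Sb.cons (nat_lit 12) (nat_lit 5)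 (nat_lit 7) Sb.nil))) (Bl.r Y1_4_1_0 (nat_lit 0) Bl.nil)) (Sl.cons (Sd.mk (nat_lit 4) (nat_lit 4) (nat_lit 21) (nat_lit 9) (Sb.cons (nat_lit 0) (nat_lit 0) (nat_lit 3) (Sb.cons (nat_lit 8) (nat_lit 3) (nat_lit 2) (Sb.cons (nat_lit 12) (nat_lit 5) (nat_lit 4) Sb.nil))) (Bl.r Y1_4_2_3 (nat_lit 3) Bl.nil)) (Sl.cons (Sd.mk (nat_lit 5) (nat_lit 4) (nat_lit 30) (nat_lit 12) (Sb.cons (nat_lit 0) (nat_lit 0) (nat_lit 2) (Sb.cons (nat_lit 8) (nat_lit 2) (nat_lit 3) (Sb.cons (nat_lit 12) (nat_lit 5) (nat_lit 7) Sb.nil))) (Bl.c Y1_4_2_3 (nat_lit 18) (nat_lit 2) Bl.nil)) (Sl.cons (Sd.mk (nat_lit 9) (nat_lit 8) (nat_lit 42) (nat_lit 13) (Sb.cons (nat_lit 0) (nat_lit 0) (nat_lit 2) (Sb.cons (nat_lit 4) (nat_lit 2) (nat_lit 3) (Sb.cons (nat_lit 12) (nat_lit 5) (nat_lit 8) Sb.nil))) (Bl.r Y1_4_4_5 (nat_lit 5) Bl.nil)) (Sl.cons (Sd.mk (nat_lit 10) (nat_lit 8) (nat_lit 55) (nat_lit 11) (Sb.cons (nat_lit 0) (nat_lit 0) (nat_lit 3) (Sb.cons (nat_lit 4) (nat_lit 3) (nat_lit 2) (Sb.cons (nat_lit 12) (nat_lit 5) (nat_lit 6)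 Sb.nil))) (Bl.c Y1_4_4_5 (nat_lit 26) (nat_lit 4) Bl.nil)) (Sl.cons (Sd.mk (nat_lit 12) (nat_lit 12) (nat_lit 66) (nat_lit 21) (Sb.cons (nat_lit 0) (nat_lit 0) (nat_lit 7) (Sb.cons (nat_lit 4) (nat_lit 7) (nat_lit 6) (Sb.cons (nat_lit 8) (nat_lit 13) (nat_lit 8) Sb.nil))) (Bl.r Y1_4_6_6 (nat_lit 6) (Bl.c Y1_4_6_6 (nat_lit 42) (nat_lit 6) Bl.nil))) (Sl.cons (Sd.mk (nat_lit 14) (nat_lit 12) (nat_lit 87) (nat_lit 15) (Sb.cons (nat_lit 0) (nat_lit 0) (nat_lit 4) (Sb.cons (nat_lit 4) (nat_lit 4) (nat_lit 5) (Sb.cons (nat_lit 8) (nat_lit 9) (nat_lit 6) Sb.nil))) (Bl.r Y1_4_7_7 (nat_lit 7) (Bl.c Y1_4_7_7 (nat_lit 30) (nat_lit 7) Bl.nil))) Sl.nil)))))))))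
noncomputable def C1_5 : Cd := (Cd.mk (nat_lit 0) (nat_lit 9) (nat_lit 4104) (nat_lit 0) (nat_lit 0) (nat_lit 0) (nat_lit 0) Sl.nil)
noncomputable def CL1 : Cl := (Cl.cons C1_0 (Cl.cons C1_1 (Cl.cons C1_2 (Cl.cons C1_3 (Cl.cons C1_4 (Cl.cons C1_5 Cl.nil))))))
noncomputable def AL1_0 : Nat := (nat_lit 0x79beb)
noncomputable def A41_0 : Nat := (nat_lit 0x79beb)
noncomputable def IX1_0 : Nat := (nat_lit 0xd000000000000c000000000000b000000000000a000000000000000000000000000000000000009000000000000800000000000000000000000007000000000000600000000000050000000000004000000000000300000000000000000000000002000000000000000000000000010000000000000)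
noncomputable def OL1_0 : Nat := (nat_lit 0x240044008000f0018002c0048008000e0018002800300020000)
noncomputable def AL1_1 : Nat := (nat_lit 0x8dabe5fbea47a)
noncomputable def A41_1 : Nat := (nat_lit 0x8d2a25e9ea47a)
noncomputable def IX1_1 : Nat := (nat_lit 0x1900000000000000000000000000000000000000000000000000180000000000017000000000000000000000000160000000000000000000000000000000000000150000000000000000000000001400000000000000000000000013000000000000000000000000000000000000000000000000001200000000000000000000000000000000000001100000000000000000000000010000000000000f000000000000e000000000000d0000000000000000000000000c00000000000000000000000000000000000000b000000000000a0000000000009000000000000800000000000000000000000007000000000000000000000000060000000000000000000000000000000000000050000000000000000000000000000000000000000000000000004000000000000300000000000020000000000001000000000000000000000000000000000000000)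
noncomputable def OL1_1 : Nat := (nat_lit 0x6600bc017002c0052009c0128021003c007000d801a0032005c00a001300240044007800d00140018002800400060004)
noncomputable def AL1_2 : Nat := (nat_lit 0xbddeed)
noncomputable def A41_2 : Nat := (nat_lit 0xbddeed)
noncomputable def IX1_2 : Nat := (nat_lit 0x1100000000000000000000000010000000000000f000000000000e000000000000d0000000000000000000000000c000000000000b000000000000a00000000000000000000000009000000000000800000000000070000000000006000000000000000000000000050000000000004000000000000300000000000000000000000002000000000000100000000000000000000000000)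
noncomputable def OL1_2 : Nat := (nat_lit 0x2e005400a001300240040007800e0018002c0050009000e0018002800300040000)
noncomputable def AL1_3 : Nat := (nat_lit 0)
noncomputable def A41_3 : Nat := (nat_lit 0)
noncomputable def IX1_3 : Nat := (nat_lit 0)
noncomputable def OL1_3 : Nat := (nat_lit 0)
noncomputable def AL1_4 : Nat := (nat_lit 0x2d3e4b6d0003d5eff6d74da512bd0f817f83c0ffef5fdabff5e9f)
noncomputable def A41_4 : Nat := (nat_lit 0x291c4b6d0002944732d74da512bc0b817f8340efe95bd2b3f529f)
noncomputable def IX1_4 : Nat := (nat_lit 0x6500000000000000000000000064000000000000000000000000000000000000063000000000000000000000000000000000000000000000000006200000000000610000000000060000000000000000000000000000000000000000000000000005f00000000000000000000000000000000000005e0000000000000000000000005d000000000005c0000000000000000000000005b000000000005a00000000000000000000000059000000000005800000000000000000000000057000000000000000000000000000000000000000000000000000000000000000000000000000000000000000000000000000000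0000000000000000000000000000000000000000000000000000000000000000000000000000000000000000000560000000000000000000000005500000000000000000000000000000000000005400000000000000000000000053000000000000000000000000000000000000000000000000005200000000000000000000000000000000000000000000000000510000000000050000000000004f00000000000000000000000000000000000004e000000000004d00000000000000000000000000000000000004c0000000000000000000000004b000000000004a0000000000000000000000004900000000000000000000000048000000000004700000000000460000000000000000000000004500000000000000000000000000000000000004400000000000430000000000000000000000004200000000000410000000000000000000000004000000000000000000000000000000000000003f0000000000000000000000003e000000000000000000000000000000000000000000000000003d00000000000000000000000000000000000003c0000000000000000000000003b0000000000000000000000003a00000000000390000000000038000000000003700000000000000000000000000000000000000000000000000000000000000000000000000000000000000000360000000000000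0000000000035000000000003400000000000330000000000000000000000000000000000000000000000000000000000000000000000000000000000000000032000000000000000000000000310000000000030000000000002f000000000002e000000000002d000000000002c000000000002b000000000002a00000000000000000000000000000000000000000000000000000000000000000000000000002900000000000280000000000000000000000002700000000000000000000000000000000000000000000000000000000000000000000000000000000000000000260000000000025000000000002400000000000000000000000023000000000002200000000000210000000000020000000000001f000000000001e000000000001d0000000000000000000000001c00000000000000000000000000000000000001b0000000000000000000000001a00000000000000000000000019000000000001800000000000000000000000017000000000001600000000000150000000000014000000000000000000000000130000000000000000000000000000000000000120000000000000000000000001100000000000000000000000010000000000000f00000000000000000000000000000000000000e000000000000d000000000000c000000000000b000000000000a00000000000090000000000000000000000000800000000000000000000000007000000000000000000000000000000000000006000000000000000000000000050000000000000000000000000000000000000040000000000003000000000000200000000000010000000000000)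
noncomputable def OL1_4 : Nat := (nat_lit 0x1a2033c06600c8018e031806100bf017a02f005d00b9016e02d805a00a50146028004f009a012c025404a009101200234045808a011002180428084010401fc03f007c00f601e403b007400e001b4035806900d0019c033005f00ba017002d805400a40144028004f009c0134026004b008a0110021003b007400e401b8036006a00d00198032006200bc016002a0050009c012802400460088010001d0036006400c00150028004c0090011002000380060009000e0010001800200020000)
noncomputable def AL1_5 : Nat := (nat_lit 0)
noncomputable def A41_5 : Nat := (nat_lit 0)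
noncomputable def IX1_5 : Nat := (nat_lit 0)
noncomputable def OL1_5 : Nat := (nat_lit 0)
noncomputable def TL1 : Tl := (Tl.cons (Tr.mk AL1_0 A41_0 IX1_0 OL1_0) (Tl.cons (Tr.mk AL1_1 A41_1 IX1_1 OL1_1) (Tl.cons (Tr.mk AL1_2 A41_2 IX1_2 OL1_2) (Tl.cons (Tr.mk AL1_3 A41_3 IX1_3 OL1_3) (Tl.cons (Tr.mk AL1_4 A41_4 IX1_4 OL1_4) (Tl.cons (Tr.mk AL1_5 A41_5 IX1_5 OL1_5) Tl.nil))))))
noncomputable def ZL1_0 : Zl := (Zl.cons (nat_lit 0) (nat_lit 0) (nat_lit 14) (Zl.cons (nat_lit 0) (nat_lit 0) (nat_lit 26) (Zl.cons (nat_lit 0) (nat_lit 0) (nat_lit 18) (Zl.cons (nat_lit 0) (nat_lit 0) (nat_lit 0) (Zl.cons (nat_lit 0) (nat_lit 0) (nat_lit 102) (Zl.cons (nat_lit 0) (nat_lit 0) (nat_lit 0) Zl.nil))))))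
noncomputable def ZZ1 : ZZ := (ZZ.cons ZL1_0 ZZ.nil)
noncomputable def SI2_0 : Nat := (nat_lit 0x400)
noncomputable def SW2_0 : Nat := (nat_lit 0x1)
noncomputable def RV2_0 : Nat := (nat_lit 0x88001088009)
noncomputable def CO2_0 : Nat := (nat_lit 0x2888400aa04)
noncomputable def C2_0 : Cd := (Cd.mk (nat_lit 2) (nat_lit 5) (nat_lit 1025) SI2_0 SW2_0 RV2_0 CO2_0 (Sl.cons (Sd.mk (nat_lit 2) (nat_lit 0) (nat_lit 0) (nat_lit 1) (Sb.cons (nat_lit 8) (nat_lit 0) (nat_lit 1) Sb.nil) Bl.nil) (Sl.cons (Sd.mk (nat_lit 10) (nat_lit 8) (nat_lit 1) (nat_lit 1) (Sb.cons (nat_lit 0) (nat_lit 0) (nat_lit 1) Sb.nil) Bl.nil) Sl.nil)))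
noncomputable def C2_1 : Cd := (Cd.mk (nat_lit 0) (nat_lit 6) (nat_lit 546) (nat_lit 0) (nat_lit 0) (nat_lit 0) (nat_lit 0) Sl.nil)
noncomputable def SI2_2 : Nat := (nat_lit 0xc0300802008010040000000)
noncomputable def SW2_2 : Nat := (nat_lit 0xe0020048010002006000002000a003)
noncomputable def RV2_2 : Nat := (nat_lit 0x8800808800708800e08801008800008800b08800a08800d88800308800f)
noncomputable def CO2_2 : Nat := (nat_lit 0x152c40142c4011784010b840100440092c40082c4001784001104000b84)
noncomputable def Y2_2_1_0 : Nat := (nat_lit 0x140140)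
noncomputable def Y2_2_2_3 : Nat := (nat_lit 0xc00c00c0)
noncomputable def C2_2 : Cd := (Cd.mk (nat_lit 10) (nat_lit 7) (nat_lit 67) SI2_2 SW2_2 RV2_2 CO2_2 (Sl.cons (Sd.mk (nat_lit 0) (nat_lit 0) (nat_lit 0) (nat_lit 3) (Sb.cons (nat_lit 0) (nat_lit 0) (nat_lit 1) (Sb.cons (nat_lit 4) (nat_lit 1) (nat_lit 2) Sb.nil)) (Bl.c Y2_2_1_0 (nat_lit 4) (nat_lit 1) Bl.nil)) (Sl.cons (Sd.mk (nat_lit 2) (nat_lit 0) (nat_lit 3) (nat_lit 2) (Sb.cons (nat_lit 0) (nat_lit 0) (nat_lit 1) (Sb.cons (nat_lit 4) (nat_lit 1) (nat_lit 1) Sb.nil)) (Bl.r Y2_2_1_0 (nat_lit 0) Bl.nil)) (Sl.cons (Sd.mk (nat_lit 4) (nat_lit 4) (nat_lit 5) (nat_lit 3) (Sb.cons (nat_lit 0) (nat_lit 0) (nat_lit 2) (Sb.cons (nat_lit 4) (nat_lit 2) (nat_lit 1) Sb.nil)) (Bl.r Y2_2_2_3 (nat_lit 3) Bl.nil)) (Sl.cons (Sd.mk (nat_lit 5) (nat_lit 4) (nat_lit 8) (nat_lit 2) (Sb.cons (nat_lit 0) (nat_lit 0) (nat_lit 1) (Sb.cons (nat_lit 4) (nat_lit 1) (nat_lit 1) Sb.nil)) (Bl.c Y2_2_2_3 (nat_lit 6) (nat_lit 2) Bl.nil)) Sl.nil)))))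
noncomputable def C2_3 : Cd := (Cd.mk (nat_lit 0) (nat_lit 11) (nat_lit 281) (nat_lit 0) (nat_lit 0) (nat_lit 0) (nat_lit 0) Sl.nil)
noncomputable def SI2_4 : Nat := (nat_lit 0x1c06018060180601405014040100400c020080100400)
noncomputable def SW2_4 : Nat := (nat_lit 0x800b005002000e002008003c00200e006801400c0110000030012003)
noncomputable def RV2_4 : Nat := (nat_lit 0x88002a04006204000a0400720400288800420400420400310000020400920400808800508800608800c204001088011100001a04005)
noncomputable def CO2_4 : Nat := (nat_lit 0x390c40329020328020325420324420309c402b04202b002028880027142027102025584016644013b0401004200b34400aa00001102)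
noncomputable def Y2_4_1_0 : Nat := (nat_lit 0x40000)
noncomputable def Y2_4_2_3 : Nat := (nat_lit 0x40)
noncomputable def Y2_4_4_5 : Nat := (nat_lit 0x180)
noncomputable def Y2_4_6_6 : Nat := (nat_lit 0x40000000000)
noncomputable def C2_4 : Cd := (Cd.mk (nat_lit 18) (nat_lit 4) (nat_lit 4369) SI2_4 SW2_4 RV2_4 CO2_4 (Sl.cons (Sd.mk (nat_lit 0) (nat_lit 0) (nat_lit 0) (nat_lit 1) (Sb.cons (nat_lit 4) (nat_lit 0) (nat_lit 1) Sb.nil) (Bl.c Y2_4_1_0 (nat_lit 4) (nat_lit 1) Bl.nil)) (Sl.cons (Sd.mk (nat_lit 2) (nat_lit 0) (nat_lit 1) (nat_lit 2) (Sb.cons (nat_lit 8) (nat_lit 0) (nat_lit 1) (Sb.cons (nat_lit 12) (nat_lit 1) (nat_lit 1) Sb.nil)) (Bl.r Y2_4_1_0 (nat_lit 0) Bl.nil)) (Sl.cons (Sd.mk (nat_lit 4) (nat_lit 4) (nat_lit 3) (nat_lit 2) (Sb.cons (nat_lit 0) (nat_lit 0) (nat_lit 1) (Sb.cons (nat_lit 12) (nat_lit 1) (nat_lit 1) Sb.nil)) (Bl.r Y2_4_2_3 (nat_lit 3) Bl.nil)) (Sl.cons (Sd.mk (nat_lit 5) (nat_lit 4) (nat_lit 5) (nat_lit 1) (Sb.cons (nat_lit 8) (nat_lit 0) (nat_lit 1) Sb.nil) (Bl.c Y2_4_2_3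 (nat_lit 4) (nat_lit 2) Bl.nil)) (Sl.cons (Sd.mk (nat_lit 9) (nat_lit 8) (nat_lit 6) (nat_lit 3) (Sb.cons (nat_lit 4) (nat_lit 0) (nat_lit 1) (Sb.cons (nat_lit 12) (nat_lit 1) (nat_lit 2) Sb.nil)) (Bl.r Y2_4_4_5 (nat_lit 5) Bl.nil)) (Sl.cons (Sd.mk (nat_lit 10) (nat_lit 8) (nat_lit 9) (nat_lit 3) (Sb.cons (nat_lit 0) (nat_lit 0) (nat_lit 1) (Sb.cons (nat_lit 12) (nat_lit 1) (nat_lit 2) Sb.nil)) (Bl.c Y2_4_4_5 (nat_lit 6) (nat_lit 4) Bl.nil)) (Sl.cons (Sd.mk (nat_lit 12) (nat_lit 12) (nat_lit 12) (nat_lit 5) (Sb.cons (nat_lit 0) (nat_lit 0) (nat_lit 1) (Sb.cons (nat_lit 8) (nat_lit 1) (nat_lit 4) Sb.nil)) (Bl.r Y2_4_6_6 (nat_lit 6) (Bl.c Y2_4_6_6 (nat_lit 10) (nat_lit 6) Bl.nil))) (Sl.cons (Sd.mk (nat_lit 14) (nat_lit 12) (nat_lit 17) (nat_lit 1) (Sb.cons (nat_lit 4) (nat_lit 0) (nat_lit 1) Sb.nil) Bl.nil) Sl.nil)))))))))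
noncomputable def C2_5 : Cd := (Cd.mk (nat_lit 0) (nat_lit 9) (nat_lit 4104) (nat_lit 0) (nat_lit 0) (nat_lit 0) (nat_lit 0) Sl.nil)
noncomputable def CL2 : Cl := (Cl.cons C2_0 (Cl.cons C2_1 (Cl.cons C2_2 (Cl.cons C2_3 (Cl.cons C2_4 (Cl.cons C2_5 Cl.nil))))))
noncomputable def AL2_0 : Nat := (nat_lit 0x3fff)
noncomputable def A42_0 : Nat := (nat_lit 0x810)
noncomputable def IX2_0 : Nat := (nat_lit 0x100000000000000000000000000000000000000000000000000000000000000000000000000000000000000000000000000000000000000000000000000000000000000000000000)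
noncomputable def OL2_0 : Nat := (nat_lit 0x160010)
noncomputable def AL2_1 : Nat := (nat_lit 0)
noncomputable def A42_1 : Nat := (nat_lit 0)
noncomputable def IX2_1 : Nat := (nat_lit 0)
noncomputable def OL2_1 : Nat := (nat_lit 0)
noncomputable def AL2_2 : Nat := (nat_lit 0x3effe)
noncomputable def A42_2 : Nat := (nat_lit 0x16cba)
noncomputable def IX2_2 : Nat := (nat_lit 0x90000000000000000000000000800000000000070000000000000000000000000600000000000050000000000000000000000000000000000000040000000000000000000000000300000000000020000000000001000000000000000000000000000000000000000)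
noncomputable def OL2_2 : Nat := (nat_lit 0x200038006800b0014001c002800400060004)
noncomputable def AL2_3 : Nat := (nat_lit 0)
noncomputable def A42_3 : Nat := (nat_lit 0)
noncomputable def IX2_3 : Nat := (nat_lit 0)
noncomputable def OL2_3 : Nat := (nat_lit 0)
noncomputable def AL2_4 : Nat := (nat_lit 0x8083d716071c5687350469c0a)
noncomputable def A42_4 : Nat := (nat_lit 0x82d01003085400210440802)
noncomputable def IX2_4 : Nat := (nat_lit 0x110000000000000000000000000000000000000000000000000000000000000000000000000000100000000000000000000000000f000000000000e0000000000000000000000000d0000000000000000000000000000000000000000000000000000000000000000000000000000000000000000000000000000000c0000000000000000000000000000000000000000000000000000000000000000000000000000000000000000000000000000000000000000000000000000000000000000000000b000000000000a00000000000000000000000000000000000000000000000000000000000000009000000000000000000000000000000000000000000000000000000000000000080000000000000000000000000700000000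0000000000000000060000000000000000000000000000000000000000000000000000000000000000000000000000000000000000000000000000000000000000000000000000000000000000000000000000000000000000000000005000000000000000000000000000000000000000000000000000000000000000040000000000000000000000000000000000000000000000000000000000000000000000000000030000000000000000000000000000000000000000000000000002000000000000000000000000000000000000000000000000000000000000000000000000000000000000000000100000000000000000000000000000000000000000000000000000000000000000000000000000000000000000000000000000000000000000000000000000000000000000000000)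
noncomputable def OL2_4 : Nat := (nat_lit 0xb60154029805200a0012001e803c006e00c8018002e0042007000b001200160004)
noncomputable def AL2_5 : Nat := (nat_lit 0)
noncomputable def A42_5 : Nat := (nat_lit 0)
noncomputable def IX2_5 : Nat := (nat_lit 0)
noncomputable def OL2_5 : Nat := (nat_lit 0)
noncomputable def TL2 : Tl := (Tl.cons (Tr.mk AL2_0 A42_0 IX2_0 OL2_0) (Tl.cons (Tr.mk AL2_1 A42_1 IX2_1 OL2_1) (Tl.cons (Tr.mk AL2_2 A42_2 IX2_2 OL2_2) (Tl.cons (Tr.mk AL2_3 A42_3 IX2_3 OL2_3) (Tl.cons (Tr.mk AL2_4 A42_4 IX2_4 OL2_4) (Tl.cons (Tr.mk AL2_5 A42_5 IX2_5 OL2_5) Tl.nil))))))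
noncomputable def ZL2_0 : Zl := (Zl.cons (nat_lit 0) (nat_lit 0) (nat_lit 0) (Zl.cons (nat_lit 0) (nat_lit 0) (nat_lit 0) (Zl.cons (nat_lit 5) (nat_lit 0) (nat_lit 3) (Zl.cons (nat_lit 0) (nat_lit 0) (nat_lit 0) (Zl.cons (nat_lit 3) (nat_lit 3) (nat_lit 2) (Zl.cons (nat_lit 0) (nat_lit 0) (nat_lit 0) Zl.nil))))))
noncomputable def ZZ2 : ZZ := (ZZ.cons ZL2_0 ZZ.nil)
def wf0_0 : wfC (nat_lit 45) (nat_lit 2) C0_0 = true := by decide +kernel
def pl0_0 : plCk (nat_lit 45) (nat_lit 2) (nat_lit 11) (nat_lit 5) (nat_lit 0) (nat_lit 2) (nat_lit 6) (nat_lit 4) (nat_lit 0) nl0 CL0 = true := by decide +kernel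
def wf0_1 : wfC (nat_lit 45) (nat_lit 2) C0_1 = true := by decide +kernel
def pl0_1 : plCk (nat_lit 45) (nat_lit 2) (nat_lit 11) (nat_lit 5) (nat_lit 0) (nat_lit 2) (nat_lit 6) (nat_lit 4) (nat_lit 1) nl0 CL0 = true := by decide +kernel
def wf0_2 : wfC (nat_lit 45) (nat_lit 2) C0_2 = true := by decide +kernel
def pl0_2 : plCk (nat_lit 45) (nat_lit 2) (nat_lit 11) (nat_lit 5) (nat_lit 0) (nat_lit 2) (nat_lit 6) (nat_lit 4) (nat_lit 2) nl0 CL0 = true := by decide +kernel
def wf0_4 : wfC (nat_lit 45) (nat_lit 2) C0_4 = true := by decide +kernel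
def pl0_4 : plCk (nat_lit 45) (nat_lit 2) (nat_lit 11) (nat_lit 5) (nat_lit 0) (nat_lit 2) (nat_lit 6) (nat_lit 4) (nat_lit 4) nl0 CL0 = true := by decide +kernel
def wf0_5 : wfC (nat_lit 45) (nat_lit 2) C0_5 = true := by decide +kernel
def pl0_5 : plCk (nat_lit 45) (nat_lit 2) (nat_lit 11) (nat_lit 5) (nat_lit 0) (nat_lit 2) (nat_lit 6) (nat_lit 4) (nat_lit 5) nl0 CL0 = true := by decide +kernel
def ti0_0 : tileCk (nat_lit 45) (nat_lit 2) (nat_lit 1) (nat_lit 1) (nat_lit 31) (nat_lit 11) (nat_lit 6) ZL0_0 CL0 = true := by decide +kernel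
def zl0_0 : zlOK (nat_lit 31) ZL0_0 = true := by decide +kernel
def tc0_0 : tiCov (nat_lit 1) (nat_lit 0) ZZ0 C0_0 = true := by decide +kernel
def tc0_1 : tiCov (nat_lit 1) (nat_lit 1) ZZ0 C0_1 = true := by decide +kernel
def tc0_2 : tiCov (nat_lit 1) (nat_lit 2) ZZ0 C0_2 = true := by decide +kernel
def tc0_4 : tiCov (nat_lit 1) (nat_lit 4) ZZ0 C0_4 = true := by decide +kernel
def tc0_5 : tiCov (nat_lit 1) (nat_lit 5) ZZ0 C0_5 = true := by decide +kernel
def wf1_0 : wfC (nat_lit 22) (nat_lit 2) C1_0 = true := by decide +kernel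
def rf1_0 : rfCk (nat_lit 45) (nat_lit 2) (nat_lit 22) (nat_lit 2) (nat_lit 9) (nat_lit 0) (nat_lit 0) TL1 CL0 CL1 = true := by decide +kernel
def st1_0_0 : starCk (nat_lit 22) (nat_lit 2) (nat_lit 1) (nat_lit 1) (nat_lit 3) (nat_lit 2) (nat_lit 1) C1_0 = true := by decide +kernel
def sc1_0 : stCov (nat_lit 0) (nat_lit 2) (Rl.cons (nat_lit 2) (nat_lit 3) Rl.nil) C1_0 = true := by decide +kernel
def wf1_1 : wfC (nat_lit 22) (nat_lit 2) C1_1 = true := by decide +kernel
def rf1_1 : rfCk (nat_lit 45) (nat_lit 2) (nat_lit 22) (nat_lit 2) (nat_lit 9) (nat_lit 0) (nat_lit 1) TL1 CL0 CL1 = true := by decide +kernel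
def st1_1_0 : starCk (nat_lit 22) (nat_lit 2) (nat_lit 1) (nat_lit 1) (nat_lit 3) (nat_lit 19) (nat_lit 256) C1_1 = true := by decide +kernel
def sc1_1 : stCov (nat_lit 2) (nat_lit 19) (Rl.cons (nat_lit 19) (nat_lit 3) Rl.nil) C1_1 = true := by decide +kernel
def wf1_2 : wfC (nat_lit 22) (nat_lit 2) C1_2 = true := by decide +kernel
def rf1_2 : rfCk (nat_lit 45) (nat_lit 2) (nat_lit 22) (nat_lit 2) (nat_lit 9) (nat_lit 0) (nat_lit 2) TL1 CL0 CL1 = true := by decide +kernel
def st1_2_0 : starCk (nat_lit 22) (nat_lit 2) (nat_lit 1) (nat_lit 1) (nat_lit 4) (nat_lit 5) (nat_lit 1) C1_2 = true := by decide +kernel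
def sc1_2 : stCov (nat_lit 0) (nat_lit 5) (Rl.cons (nat_lit 5) (nat_lit 4) Rl.nil) C1_2 = true := by decide +kernel
def wf1_4 : wfC (nat_lit 22) (nat_lit 2) C1_4 = true := by decide +kernel
def rf1_4 : rfCk (nat_lit 45) (nat_lit 2) (nat_lit 22) (nat_lit 2) (nat_lit 9) (nat_lit 0) (nat_lit 4) TL1 CL0 CL1 = true := by decide +kernel
def st1_4_0 : starCk (nat_lit 22) (nat_lit 2) (nat_lit 1) (nat_lit 1) (nat_lit 9) (nat_lit 21) (nat_lit 16) C1_4 = true := by decide +kernel
def sc1_4 : stCov (nat_lit 1) (nat_lit 21) (Rl.cons (nat_lit 21) (nat_lit 9) Rl.nil) C1_4 = true := by decide +kernel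
def wf2_0 : wfC (nat_lit 6) (nat_lit 2) C2_0 = true := by decide +kernel
def rf2_0 : rfCk (nat_lit 22) (nat_lit 2) (nat_lit 6) (nat_lit 2) (nat_lit 9) (nat_lit 0) (nat_lit 0) TL2 CL1 CL2 = true := by decide +kernel
def wf2_2 : wfC (nat_lit 6) (nat_lit 2) C2_2 = true := by decide +kernel
def rf2_2 : rfCk (nat_lit 22) (nat_lit 2) (nat_lit 6) (nat_lit 2) (nat_lit 9) (nat_lit 0) (nat_lit 2) TL2 CL1 CL2 = true := by decide +kernel
def wf2_4 : wfC (nat_lit 6) (nat_lit 2) C2_4 = true := by decide +kernel
def rf2_4 : rfCk (nat_lit 22) (nat_lit 2) (nat_lit 6) (nat_lit 2) (nat_lit 9) (nat_lit 0) (nat_lit 4) TL2 CL1 CL2 = true := by decide +kernel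
def ti2_0 : tileCk (nat_lit 6) (nat_lit 2) (nat_lit 1) (nat_lit 1) (nat_lit 5) (nat_lit 11) (nat_lit 6) ZL2_0 CL2 = true := by decide +kernel
def zl2_0 : zlOK (nat_lit 5) ZL2_0 = true := by decide +kernel
def tc2_0 : tiCov (nat_lit 1) (nat_lit 0) ZZ2 C2_0 = true := by decide +kernel
def tc2_2 : tiCov (nat_lit 1) (nat_lit 2) ZZ2 C2_2 = true := by decide +kernel
def tc2_4 : tiCov (nat_lit 1) (nat_lit 4) ZZ2 C2_4 = true := by decide +kernel
def de2_0 : deadCk (nat_lit 6) (nat_lit 2) C2_0 = true := by decide +kernel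
def de2_2 : deadCk (nat_lit 6) (nat_lit 2) C2_2 = true := by decide +kernel
def de2_4 : deadCk (nat_lit 6) (nat_lit 2) C2_4 = true := by decide +kernel
def wf0_3 : wfC (nat_lit 45) (nat_lit 2) C0_3 = true := by decide +kernel
def pl0_3 : plCk (nat_lit 45) (nat_lit 2) (nat_lit 11) (nat_lit 5) (nat_lit 0) (nat_lit 2) (nat_lit 6) (nat_lit 4) (nat_lit 3) nl0 CL0 = true := by decide +kernel
def sc0_0 : stCov (nat_lit 0) (nat_lit 0) (Rl.cons (nat_lit 0) (nat_lit 21) Rl.nil) C0_0 = true := by decide +kernel
def sc0_1 : stCov (nat_lit 0) (nat_lit 0) (Rl.cons (nat_lit 0) (nat_lit 52) Rl.nil) C0_1 = true := by decide +kernel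
def sc0_2 : stCov (nat_lit 0) (nat_lit 0) (Rl.cons (nat_lit 0) (nat_lit 24) Rl.nil) C0_2 = true := by decide +kernel
def sc0_3 : stCov (nat_lit 0) (nat_lit 0) Rl.nil C0_3 = true := by decide +kernel
def sc0_4 : stCov (nat_lit 0) (nat_lit 0) (Rl.cons (nat_lit 0) (nat_lit 210) Rl.nil) C0_4 = true := by decide +kernel
def sc0_5 : stCov (nat_lit 0) (nat_lit 0) (Rl.cons (nat_lit 0) (nat_lit 35) Rl.nil) C0_5 = true := by decide +kernel
def tc0_3 : tiCov (nat_lit 1) (nat_lit 3) ZZ0 C0_3 = true := by decide +kernel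
def wf1_3 : wfC (nat_lit 22) (nat_lit 2) C1_3 = true := by decide +kernel
def wf1_5 : wfC (nat_lit 22) (nat_lit 2) C1_5 = true := by decide +kernel
def rf1_3 : rfCk (nat_lit 45) (nat_lit 2) (nat_lit 22) (nat_lit 2) (nat_lit 9) (nat_lit 0) (nat_lit 3) TL1 CL0 CL1 = true := by decide +kernel
def rf1_5 : rfCk (nat_lit 45) (nat_lit 2) (nat_lit 22) (nat_lit 2) (nat_lit 9) (nat_lit 0) (nat_lit 5) TL1 CL0 CL1 = true := by decide +kernel
def zl1_0 : zlOK (nat_lit 102) ZL1_0 = true := by decide +kernel
def sc1_3 : stCov (nat_lit 0) (nat_lit 0) Rl.nil C1_3 = true := by decide +kernel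
def sc1_5 : stCov (nat_lit 0) (nat_lit 0) Rl.nil C1_5 = true := by decide +kernel
def tc1_0 : tiCov (nat_lit 1) (nat_lit 0) ZZ1 C1_0 = true := by decide +kernel
def tc1_1 : tiCov (nat_lit 1) (nat_lit 1) ZZ1 C1_1 = true := by decide +kernel
def tc1_2 : tiCov (nat_lit 1) (nat_lit 2) ZZ1 C1_2 = true := by decide +kernel
def tc1_3 : tiCov (nat_lit 1) (nat_lit 3) ZZ1 C1_3 = true := by decide +kernel
def tc1_4 : tiCov (nat_lit 1) (nat_lit 4) ZZ1 C1_4 = true := by decide +kernel
def tc1_5 : tiCov (nat_lit 1) (nat_lit 5) ZZ1 C1_5 = true := by decide +kernel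
def wf2_1 : wfC (nat_lit 6) (nat_lit 2) C2_1 = true := by decide +kernel
def wf2_3 : wfC (nat_lit 6) (nat_lit 2) C2_3 = true := by decide +kernel
def wf2_5 : wfC (nat_lit 6) (nat_lit 2) C2_5 = true := by decide +kernel
def rf2_1 : rfCk (nat_lit 22) (nat_lit 2) (nat_lit 6) (nat_lit 2) (nat_lit 9) (nat_lit 0) (nat_lit 1) TL2 CL1 CL2 = true := by decide +kernel
def rf2_3 : rfCk (nat_lit 22) (nat_lit 2) (nat_lit 6) (nat_lit 2) (nat_lit 9) (nat_lit 0) (nat_lit 3) TL2 CL1 CL2 = true := by decide +kernel
def rf2_5 : rfCk (nat_lit 22) (nat_lit 2) (nat_lit 6) (nat_lit 2) (nat_lit 9) (nat_lit 0) (nat_lit 5) TL2 CL1 CL2 = true := by decide +kernel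
def sc2_0 : stCov (nat_lit 0) (nat_lit 0) (Rl.cons (nat_lit 0) (nat_lit 2) Rl.nil) C2_0 = true := by decide +kernel
def sc2_1 : stCov (nat_lit 0) (nat_lit 0) Rl.nil C2_1 = true := by decide +kernel
def sc2_2 : stCov (nat_lit 0) (nat_lit 0) (Rl.cons (nat_lit 0) (nat_lit 10) Rl.nil) C2_2 = true := by decide +kernel
def sc2_3 : stCov (nat_lit 0) (nat_lit 0) Rl.nil C2_3 = true := by decide +kernel
def sc2_4 : stCov (nat_lit 0) (nat_lit 0) (Rl.cons (nat_lit 0) (nat_lit 18) Rl.nil) C2_4 = true := by decide +kernel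
def sc2_5 : stCov (nat_lit 0) (nat_lit 0) Rl.nil C2_5 = true := by decide +kernel
def tc2_1 : tiCov (nat_lit 1) (nat_lit 1) ZZ2 C2_1 = true := by decide +kernel
def tc2_3 : tiCov (nat_lit 1) (nat_lit 3) ZZ2 C2_3 = true := by decide +kernel
def tc2_5 : tiCov (nat_lit 1) (nat_lit 5) ZZ2 C2_5 = true := by decide +kernel
def de2_1 : deadCk (nat_lit 6) (nat_lit 2) C2_1 = true := by decide +kernel
def de2_3 : deadCk (nat_lit 6) (nat_lit 2) C2_3 = true := by decide +kernel
def de2_5 : deadCk (nat_lit 6) (nat_lit 2) C2_5 = true := by decide +kernel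

end Pool.Agent.NNr.R11_4_13_15
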